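import Pool.Agent.Helper23.MT.Goals

set_option autoImplicit false

open scoped Classical

namespace Pool.Agent.Helper2.MT

open Pool.Agent.Helper23.MT

theorem ones_le (k : ℕ) (z : ℤ) : ones k z ≤ k := by
  induction k generalizing z with
  | zero => simp [ones]
  | succ k ih =>
    unfold ones
    split_ifs
    · have := ih (U z); omega
    · have := ih (U z); omega

/-- survivors of all steps -/
def Sv (z : ℤ) : Prop := ∀ k : ℕ, U^[k] z % 3 ≠ 1

/-- the set which is counted -/
noncomputable def NS (X : ℕ) : Finset ℤ :=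
  (Finset.Icc (-(X : ℤ)) X).filter (fun z => ∀ k : ℕ, U^[k] z % 3 ≠ 1)

theorem mem_NS {X : ℕ} {z : ℤ} : z ∈ NS X ↔ |z| ≤ X ∧ Sv z := by
  unfold NS Sv
  rw [Finset.mem_filter, Finset.mem_Icc, abs_le]

theorem sv_surv {z : ℤ} (h : Sv z) (k : ℕ) : Surv k z := fun i _ => h i

theorem sv_iter {z : ℤ} (h : Sv z) (k : ℕ) : Sv (U^[k] z) := by
  intro i
  rw [← Function.iterate_add_apply]
  exact h (i + k)

theorem ev_growth (r c : ℝ) (hr : 1 < r) (hc : 0 < c) :
    ∃ k0 : ℕ, ∀ k : ℕ, k0 ≤ k → c * (k + 1) ≤ r ^ k := by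
  have h := tendsto_pow_const_div_const_pow_of_one_lt 1 hr
  have h2 : ∀ᶠ k : ℕ in Filter.atTop, (k : ℝ) ^ 1 / r ^ k < 1 / (2 * c) :=
    h.eventually (gt_mem_nhds (by positivity))
  obtain ⟨k1, hk1⟩ := Filter.eventually_atTop.mp h2
  refine ⟨max k1 1, fun k hk => ?_⟩
  have h3 := hk1 k ((le_max_left _ _).trans hk)
  have h4 : (1 : ℝ) ≤ k := by
    have : 1 ≤ k := (le_max_right _ _).trans hk
    exact_mod_cast this
  have hrk : 0 < r ^ k := by positivity
  rw [pow_one, div_lt_div_iff₀ hrk (by positivity)] at h3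
  nlinarith

theorem gMAIN (h1 : GKRAFT) (h2 : GCOUNT) (h3 : GSIZE) (h4 : GNUM) : GMAIN := by
  obtain ⟨W, P, x, hW, hP, hx, hx1, hWw, hPp, hxx, hineq⟩ := h4
  set θ : ℝ := (629 : ℝ) / 1000 with hθ
  set θ' : ℝ := (628 : ℝ) / 1000 with hθ'
  have hθ0 : 0 < θ := by rw [hθ]; norm_num
  set s7 : ℝ := (7 : ℝ) ^ θ with hs7
  set s3 : ℝ := (3 : ℝ) ^ θ with hs3
  set s3' : ℝ := (3 : ℝ) ^ θ' with hs3'
  set s8 : ℝ := (3 : ℝ) ^ ((1 / 8) * θ') with hs8
  set r : ℝ := (3 : ℝ) ^ ((1 : ℝ) / 1000) with hr
  have h70 : 0 < s7 := Real.rpow_pos_of_pos (by norm_num) _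
  have h30 : 0 < s3 := Real.rpow_pos_of_pos (by norm_num) _
  have h3'0 : 0 < s3' := Real.rpow_pos_of_pos (by norm_num) _
  have h80 : 0 < s8 := Real.rpow_pos_of_pos (by norm_num) _
  have hr1 : 1 < r := Real.one_lt_rpow (by norm_num) (by norm_num)
  have hr0 : 0 < r := by linarith
  have e1 : s3 = s3' * r := by
    rw [hs3, hs3', hr, ← Real.rpow_add (by norm_num)]
    congr 1
    rw [hθ, hθ']; norm_num
  have e2 : s8 ^ 8 = s3' := by
    rw [hs8, hs3', ← Real.rpow_natCast, ← Real.rpow_mul (by norm_num)]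
    congr 1
    push_cast
    ring
  have e3 : 1 / x ≤ s3 * s8 := by
    rw [hs3, hs8, ← Real.rpow_add (by norm_num)]
    exact hxx
  have c12 : 0 < (12 : ℝ) ^ θ := Real.rpow_pos_of_pos (by norm_num) _
  have c6 : 0 < (6 : ℝ) ^ θ := Real.rpow_pos_of_pos (by norm_num) _
  have c2 : 0 < (2 : ℝ) ^ θ := Real.rpow_pos_of_pos (by norm_num) _
  have e26 : (2 : ℝ) ^ θ * (6 : ℝ) ^ θ = (12 : ℝ) ^ θ := by
    rw [← Real.mul_rpow (by norm_num) (by norm_num)]; norm_num
  obtain ⟨k0, hk0⟩ := ev_growth r (128 * (12 : ℝ) ^ θ) hr1 (by positivity)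
  set C : ℝ := 3 * 3 ^ k0 + 12 * (6 : ℝ) ^ θ with hC
  have hC0 : 0 < C := by positivity
  refine ⟨C, hC0, ?_⟩
  -- strong induction
  have main : ∀ X : ℕ, 1 ≤ X → ((NS X).card : ℝ) ≤ C * (X : ℝ) ^ θ := by
    intro X
    induction X using Nat.strong_induction_on with
    | _ X ih =>
    intro hX
    have hXr : (1 : ℝ) ≤ X := by exact_mod_cast hX
    have hXθ1 : 1 ≤ (X : ℝ) ^ θ := Real.one_le_rpow hXr hθ0.le
    set k := Nat.log 3 (2 * X) + 1 with hk
    have hk1 : 2 * X < 3 ^ k := Nat.lt_pow_succ_log_self (by norm_num) _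
    have hk2 : 3 ^ k ≤ 6 * X := by
      have := Nat.pow_log_le_self 3 (x := 2 * X) (by omega)
      rw [hk, pow_succ]
      omega
    have hk1r : 2 * (X : ℝ) < 3 ^ k := by exact_mod_cast hk1
    have hk2r : (3 : ℝ) ^ k ≤ 6 * X := by exact_mod_cast hk2
    by_cases hkk : k < k0
    · -- small case
      have hc : (NS X).card ≤ 2 * X + 1 := by
        refine (Finset.card_filter_le _ _).trans ?_
        rw [Int.card_Icc]
        omega
      have hc' : ((NS X).card : ℝ) ≤ 2 * X + 1 := by exact_mod_cast hc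
      have hp : (3 : ℝ) ^ k ≤ 3 ^ k0 := pow_le_pow_right₀ (by norm_num) hkk.le
      calc ((NS X).card : ℝ) ≤ 2 * X + 1 := hc'
        _ ≤ C := by rw [hC]; nlinarith [pow_pos (show (0 : ℝ) < 3 by norm_num) k0]
        _ ≤ C * (X : ℝ) ^ θ := le_mul_of_one_le_right hC0.le hXθ1
    · push Not at hkk
      have hgr := hk0 k hkk
      -- the set A
      set A := NS X with hA
      have hAs : ∀ z ∈ A, Surv k z := fun z hz => sv_surv (mem_NS.mp hz).2 k
      have hsep : ∀ z ∈ A, ∀ z' ∈ A, (3 : ℤ) ^ k ∣ z - z' → z = z' := by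
        intro z hz z' hz' hd
        have h5 := (mem_NS.mp hz).1
        have h6 := (mem_NS.mp hz').1
        have h7 : |z - z'| < 3 ^ k := by
          have h8 : |z - z'| ≤ |z| + |z'| := abs_sub z z'
          have h9 : (2 * X : ℤ) < 3 ^ k := by exact_mod_cast hk1
          omega
        have := Int.eq_zero_of_abs_lt_dvd hd h7
        omega
      have hcount := h2 W P x hW.le hP.le hx hx1 hineq k A hAs hsep
      -- the weight b
      set b : ℤ → ℝ := fun z => (s7 * (64 / 63)) ^ ones k z * 64 ^ wraps k z with hb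
      have hb0 : ∀ z, 0 < b z := fun z => by rw [hb]; positivity
      have hbW : ∀ z, b z ≤ (W ^ ones k z * P ^ wraps k z) ^ 8 := by
        intro z
        have e4 : (W ^ ones k z * P ^ wraps k z) ^ 8 = (W ^ 8) ^ ones k z * (P ^ 8) ^ wraps k z := by
          rw [mul_pow, ← pow_mul, ← pow_mul, ← pow_mul, ← pow_mul, mul_comm 8, mul_comm 8]
        rw [e4, hb]
        simp only
        exact mul_le_mul (pow_le_pow_left₀ (by positivity) hWw _)
          (pow_le_pow_left₀ (by norm_num) hPp _) (by positivity) (by positivity)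
      -- the first part
      set A1 := A.filter (fun z => s3' ^ k < b z) with hA1
      set A2 := A.filter (fun z => ¬ s3' ^ k < b z) with hA2
      have hcardA : (A.card : ℝ) = (A1.card : ℝ) + (A2.card : ℝ) := by
        have := Finset.card_filter_add_card_filter_not (s := A) (fun z => s3' ^ k < b z)
        rw [← this]
        push_cast
        rfl
      have hA1c : (A1.card : ℝ) ≤ 6 * s3 ^ k := by
        have h5 : ∀ z ∈ A1, s8 ^ k ≤ W ^ ones k z * P ^ wraps k z := by
          intro z hz
          have h6 : s3' ^ k < b z := (Finset.mem_filter.mp hz).2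
          have h7 : (s8 ^ k) ^ 8 ≤ (W ^ ones k z * P ^ wraps k z) ^ 8 := by
            calc (s8 ^ k) ^ 8 = (s8 ^ 8) ^ k := by rw [← pow_mul, ← pow_mul, mul_comm]
              _ = s3' ^ k := by rw [e2]
              _ ≤ b z := h6.le
              _ ≤ _ := hbW z
          exact le_of_pow_le_pow_left₀ (by norm_num) (by positivity) h7
        have h8 : (A1.card : ℝ) * s8 ^ k ≤ 6 * (1 / x) ^ k := by
          calc (A1.card : ℝ) * s8 ^ k = ∑ _z ∈ A1, s8 ^ k := by
                rw [Finset.sum_const, nsmul_eq_mul]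
            _ ≤ ∑ z ∈ A1, W ^ ones k z * P ^ wraps k z := Finset.sum_le_sum h5
            _ ≤ ∑ z ∈ A, W ^ ones k z * P ^ wraps k z :=
                Finset.sum_le_sum_of_subset_of_nonneg (Finset.filter_subset _ _)
                  (fun z _ _ => by positivity)
            _ ≤ _ := hcount
        have h9 : 6 * (1 / x) ^ k ≤ (6 * s3 ^ k) * s8 ^ k := by
          have : (1 / x) ^ k ≤ (s3 * s8) ^ k := pow_le_pow_left₀ (by positivity) e3 k
          rw [mul_pow] at this
          nlinarith
        have h10 : 0 < s8 ^ k := by positivity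
        exact le_of_mul_le_mul_right (h8.trans h9) h10
      -- the second part
      have hA2c : (A2.card : ℝ) ≤ s3' ^ k * ((k + 1) * (64 * (C * (2 : ℝ) ^ θ))) := by
        set g : ℤ → ℝ := fun z => ((63 : ℝ) / 64) ^ ones k z * ((1 : ℝ) / 64) ^ wraps k z with hg
        have hg0 : ∀ z, 0 ≤ g z := fun z => by rw [hg]; positivity
        have hbg : ∀ z, (s7⁻¹) ^ ones k z * g z * b z = 1 := by
          intro z
          rw [hg, hb]
          simp only
          rw [mul_pow s7]
          have e5 : (s7⁻¹) ^ ones k z * s7 ^ ones k z = 1 := by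
            rw [← mul_pow, inv_mul_cancel₀ h70.ne', one_pow]
          have e6 : ((63 : ℝ) / 64) ^ ones k z * (64 / 63) ^ ones k z = 1 := by
            rw [← mul_pow]; norm_num
          have e7 : ((1 : ℝ) / 64) ^ wraps k z * 64 ^ wraps k z = 1 := by
            rw [← mul_pow]; norm_num
          calc _ = ((s7⁻¹) ^ ones k z * s7 ^ ones k z) *
                (((63 : ℝ) / 64) ^ ones k z * (64 / 63) ^ ones k z) *
                (((1 : ℝ) / 64) ^ wraps k z * 64 ^ wraps k z) := by ring
            _ = 1 := by rw [e5, e6, e7]; norm_num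
        have h5 : ∀ z ∈ A2, (1 : ℝ) ≤ s3' ^ k * ((s7⁻¹) ^ ones k z * g z) := by
          intro z hz
          have h6 : b z ≤ s3' ^ k := not_lt.mp (Finset.mem_filter.mp hz).2
          have h7 : 0 ≤ (s7⁻¹) ^ ones k z * g z := mul_nonneg (by positivity) (hg0 z)
          calc (1 : ℝ) = (s7⁻¹) ^ ones k z * g z * b z := (hbg z).symm
            _ ≤ (s7⁻¹) ^ ones k z * g z * s3' ^ k := mul_le_mul_of_nonneg_left h6 h7
            _ = _ := by ring
        have h6 : (A2.card : ℝ) ≤ ∑ z ∈ A2, s3' ^ k * ((s7⁻¹) ^ ones k z * g z) := by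
          calc (A2.card : ℝ) = ∑ _z ∈ A2, (1 : ℝ) := by rw [Finset.sum_const, nsmul_eq_mul, mul_one]
            _ ≤ _ := Finset.sum_le_sum h5
        rw [← Finset.mul_sum] at h6
        refine h6.trans (mul_le_mul_of_nonneg_left ?_ (by positivity))
        rw [← Finset.sum_fiberwise_of_maps_to (s := A2) (t := Finset.range (k + 1))
          (g := fun z => ones k z)
          (fun z _ => Finset.mem_range.mpr (Nat.lt_succ_of_le (ones_le k z)))]
        have h7 : ∀ a ∈ Finset.range (k + 1),
            ∑ z ∈ A2.filter (fun z => ones k z = a), (s7⁻¹) ^ ones k z * g z ≤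
              64 * (C * (2 : ℝ) ^ θ) := by
          intro a _
          rcases (A2.filter (fun z => ones k z = a)).eq_empty_or_nonempty with he | ⟨z0, hz0⟩
          · rw [he, Finset.sum_empty]; positivity
          · -- size
            have hz0' := Finset.mem_filter.mp hz0
            have hbz : b z0 ≤ s3' ^ k := not_lt.mp (Finset.mem_filter.mp hz0'.1).2
            have h8 : s7 ^ a ≤ s3' ^ k := by
              refine le_trans ?_ hbz
              rw [hb]
              simp only
              rw [hz0'.2, mul_pow]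
              have e8 : (1 : ℝ) ≤ (64 / 63) ^ a := one_le_pow₀ (by norm_num)
              have e9 : (1 : ℝ) ≤ 64 ^ wraps k z0 := one_le_pow₀ (by norm_num)
              have e10 : 0 < s7 ^ a := by positivity
              calc s7 ^ a = s7 ^ a * 1 * 1 := by ring
                _ ≤ s7 ^ a * (64 / 63) ^ a * 64 ^ wraps k z0 := by gcongr
            have e11 : (((2 * 7 ^ a : ℕ) : ℝ)) ^ θ = (2 : ℝ) ^ θ * s7 ^ a := by
              push_cast
              rw [Real.mul_rpow (by norm_num) (by positivity), hs7,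
                Real.rpow_pow_comm (by norm_num)]
            have h9 : (2 * 7 ^ a : ℕ) < X := by
              by_contra hcon
              push Not at hcon
              have hcon' : (X : ℝ) ≤ ((2 * 7 ^ a : ℕ) : ℝ) := by exact_mod_cast hcon
              have h10 : (X : ℝ) ^ θ ≤ (2 : ℝ) ^ θ * s7 ^ a := by
                rw [← e11]
                exact Real.rpow_le_rpow (by positivity) hcon' hθ0.le
              have h11 : s3 ^ k ≤ (6 : ℝ) ^ θ * (X : ℝ) ^ θ := by
                rw [hs3, Real.rpow_pow_comm (by norm_num), ← Real.mul_rpow (by norm_num) (by positivity)]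
                exact Real.rpow_le_rpow (by positivity) hk2r hθ0.le
              have h12 : s3 ^ k = s3' ^ k * r ^ k := by rw [e1, mul_pow]
              have h13 : s3' ^ k * r ^ k ≤ s3' ^ k * (12 : ℝ) ^ θ := by
                calc s3' ^ k * r ^ k = s3 ^ k := h12.symm
                  _ ≤ (6 : ℝ) ^ θ * (X : ℝ) ^ θ := h11
                  _ ≤ (6 : ℝ) ^ θ * ((2 : ℝ) ^ θ * s7 ^ a) := by gcongr
                  _ ≤ (6 : ℝ) ^ θ * ((2 : ℝ) ^ θ * s3' ^ k) := by gcongr
                  _ = s3' ^ k * ((2 : ℝ) ^ θ * (6 : ℝ) ^ θ) := by ring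
                  _ = s3' ^ k * (12 : ℝ) ^ θ := by rw [e26]
              have h14 : r ^ k ≤ (12 : ℝ) ^ θ := le_of_mul_le_mul_left h13 (by positivity)
              have h15 : (12 : ℝ) ^ θ < 128 * (12 : ℝ) ^ θ * (k + 1) := by
                have : (0 : ℝ) ≤ k := Nat.cast_nonneg k
                nlinarith
              linarith
            have h10 : ((NS (2 * 7 ^ a)).card : ℝ) ≤ C * ((2 : ℝ) ^ θ * s7 ^ a) := by
              have := ih (2 * 7 ^ a) h9 (by have := Nat.one_le_pow a 7 (by norm_num); omega)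
              rwa [e11] at this
            -- the inner sum
            have h11 : ∀ z ∈ A2.filter (fun z => ones k z = a), U^[k] z ∈ NS (2 * 7 ^ a) := by
              intro z hz
              have hz' := Finset.mem_filter.mp hz
              have hzA : z ∈ A := (Finset.mem_filter.mp hz'.1).1
              have hzN := mem_NS.mp hzA
              refine mem_NS.mpr ⟨?_, sv_iter hzN.2 k⟩
              have h12 := h3 k z (hAs z hzA)
              rw [hz'.2] at h12
              have h13 : (|z| : ℝ) ≤ X := by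
                have := hzN.1
                exact_mod_cast this
              have h14 : (|z| : ℝ) / 3 ^ k ≤ 1 := by
                rw [div_le_one (by positivity)]
                linarith
              have h15 : (|U^[k] z| : ℝ) ≤ 2 * 7 ^ a := by
                have : (0 : ℝ) < 7 ^ a := by positivity
                nlinarith
              exact_mod_cast h15
            have h12 : ∑ z ∈ A2.filter (fun z => ones k z = a), g z ≤
                64 * ((NS (2 * 7 ^ a)).card : ℝ) := by
              rw [← Finset.sum_fiberwise_of_maps_to (g := fun z => U^[k] z) h11]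
              calc ∑ y ∈ NS (2 * 7 ^ a),
                    ∑ z ∈ (A2.filter (fun z => ones k z = a)).filter (fun z => U^[k] z = y), g z
                  ≤ ∑ _y ∈ NS (2 * 7 ^ a), (64 : ℝ) := by
                    refine Finset.sum_le_sum fun y _ => ?_
                    refine h1 k y _ fun z hz => ?_
                    have hz1 := Finset.mem_filter.mp hz
                    have hz2 := Finset.mem_filter.mp hz1.1
                    exact ⟨hAs z (Finset.mem_filter.mp hz2.1).1, hz1.2⟩
                _ = 64 * ((NS (2 * 7 ^ a)).card : ℝ) := by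
                    rw [Finset.sum_const, nsmul_eq_mul, mul_comm]
            have h13 : ∑ z ∈ A2.filter (fun z => ones k z = a), (s7⁻¹) ^ ones k z * g z =
                (s7⁻¹) ^ a * ∑ z ∈ A2.filter (fun z => ones k z = a), g z := by
              rw [Finset.mul_sum]
              refine Finset.sum_congr rfl fun z hz => ?_
              rw [(Finset.mem_filter.mp hz).2]
            rw [h13]
            calc (s7⁻¹) ^ a * ∑ z ∈ A2.filter (fun z => ones k z = a), g z
                ≤ (s7⁻¹) ^ a * (64 * (C * ((2 : ℝ) ^ θ * s7 ^ a))) := by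
                  refine mul_le_mul_of_nonneg_left ?_ (by positivity)
                  linarith
              _ = 64 * (C * (2 : ℝ) ^ θ) * ((s7⁻¹) ^ a * s7 ^ a) := by ring
              _ = 64 * (C * (2 : ℝ) ^ θ) := by
                  rw [← mul_pow, inv_mul_cancel₀ h70.ne', one_pow, mul_one]
        refine (Finset.sum_le_sum h7).trans ?_
        rw [Finset.sum_const, Finset.card_range, nsmul_eq_mul]
        push_cast
        exact le_rfl
      -- conclusion
      have h11 : s3 ^ k ≤ (6 : ℝ) ^ θ * (X : ℝ) ^ θ := by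
        rw [hs3, Real.rpow_pow_comm (by norm_num), ← Real.mul_rpow (by norm_num) (by positivity)]
        exact Real.rpow_le_rpow (by positivity) hk2r hθ0.le
      have h12 : s3 ^ k = s3' ^ k * r ^ k := by rw [e1, mul_pow]
      have hrk : 0 < r ^ k := by positivity
      have h13 : s3' ^ k * ((k + 1) * (64 * (C * (2 : ℝ) ^ θ))) ≤ C / 2 * (X : ℝ) ^ θ := by
        have h14 : (s3' ^ k * ((k + 1) * (64 * (C * (2 : ℝ) ^ θ)))) * r ^ k ≤
            (C / 2 * (X : ℝ) ^ θ) * r ^ k := by
          calc (s3' ^ k * ((k + 1) * (64 * (C * (2 : ℝ) ^ θ)))) * r ^ k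
              = (s3' ^ k * r ^ k) * ((k + 1) * (64 * (C * (2 : ℝ) ^ θ))) := by ring
            _ = s3 ^ k * ((k + 1) * (64 * (C * (2 : ℝ) ^ θ))) := by rw [h12]
            _ ≤ ((6 : ℝ) ^ θ * (X : ℝ) ^ θ) * ((k + 1) * (64 * (C * (2 : ℝ) ^ θ))) := by gcongr
            _ = (C / 2 * (X : ℝ) ^ θ) * (128 * ((2 : ℝ) ^ θ * (6 : ℝ) ^ θ) * (k + 1)) := by ring
            _ = (C / 2 * (X : ℝ) ^ θ) * (128 * (12 : ℝ) ^ θ * (k + 1)) := by rw [e26]
            _ ≤ (C / 2 * (X : ℝ) ^ θ) * r ^ k := by gcongr
        exact le_of_mul_le_mul_right h14 hrk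
      have h14 : 6 * s3 ^ k ≤ C / 2 * (X : ℝ) ^ θ := by
        have h15 : 6 * (6 : ℝ) ^ θ ≤ C / 2 := by
          rw [hC]
          have : (0 : ℝ) < 3 ^ k0 := by positivity
          linarith
        calc 6 * s3 ^ k ≤ 6 * ((6 : ℝ) ^ θ * (X : ℝ) ^ θ) := by gcongr
          _ = (6 * (6 : ℝ) ^ θ) * (X : ℝ) ^ θ := by ring
          _ ≤ _ := by gcongr
      rw [hcardA]
      linarith
  intro X hX
  exact main X hX

end Pool.Agent.Helper2.MT
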